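import Mathlib
import Pool.Agent.Helper16.NM.Riesz

/-!
Fourth power tails for the number of carries, from those of the digits.
-/

set_option autoImplicit false

namespace Pool.Agent.Helper18.FP

open Finset
open Pool.Agent.Helper16.NM (r)

/-- the carry at the position `j` -/
def ga (b a a' j : ℕ) : ℕ := if b ^ j ≤ a % b ^ j + a' % b ^ j then 1 else 0

theorem digit_carry {b : ℕ} (hb : 2 ≤ b) (a a' j : ℕ) :
    a / b ^ j % b + a' / b ^ j % b + ga b a a' j =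
      (a + a') / b ^ j % b + b * ga b a a' (j + 1) := by
  have hM : 0 < b ^ j := Nat.pow_pos (by omega)
  have hg : ga b a a' j = if b ^ j ≤ a % b ^ j + a' % b ^ j then 1 else 0 := rfl
  have hg1 : ga b a a' (j + 1) =
      if b ^ j * b ≤ (a % b ^ j + b ^ j * (a / b ^ j % b)) +
        (a' % b ^ j + b ^ j * (a' / b ^ j % b)) then 1 else 0 := by
    unfold ga
    rw [pow_succ, Nat.mod_mul, Nat.mod_mul]
  rw [Nat.add_div hM, ← hg, hg1]
  have hr := Nat.mod_lt a hM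
  have hr' := Nat.mod_lt a' hM
  have hD := Nat.mod_lt (a / b ^ j) (show 0 < b by omega)
  have hD' := Nat.mod_lt (a' / b ^ j) (show 0 < b by omega)
  have e1 : (a / b ^ j + a' / b ^ j + ga b a a' j) % b =
      (a / b ^ j % b + a' / b ^ j % b + ga b a a' j) % b :=
    ((Nat.mod_modEq _ b).symm.add (Nat.mod_modEq _ b).symm).add_right _
  rw [e1]
  set M := b ^ j
  set D := a / M % b
  set D' := a' / M % b
  set ρ := a % M
  set ρ' := a' % M
  have hgle : ga b a a' j ≤ 1 := by rw [hg]; split_ifs <;> omega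
  have hiff : M * b ≤ (ρ + M * D) + (ρ' + M * D') ↔ b ≤ D + D' + ga b a a' j := by
    rw [hg]
    split_ifs with h
    · constructor
      · intro h1
        by_contra h2
        have h3 : D + D' + 2 ≤ b := by omega
        have h4 := Nat.mul_le_mul_left M h3
        have h5 : M * (D + D' + 2) = M * D + M * D' + 2 * M := by ring
        omega
      · intro h1
        have h4 := Nat.mul_le_mul_left M h1
        have h5 : M * (D + D' + 1) = M * D + M * D' + M := by ring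
        omega
    · constructor
      · intro h1
        by_contra h2
        have h3 : D + D' + 1 ≤ b := by omega
        have h4 := Nat.mul_le_mul_left M h3
        have h5 : M * (D + D' + 1) = M * D + M * D' + M := by ring
        omega
      · intro h1
        have h4 := Nat.mul_le_mul_left M h1
        have h5 : M * (D + D' + 0) = M * D + M * D' := by ring
        omega
  by_cases h : b ≤ D + D' + ga b a a' j
  · rw [if_pos (hiff.2 h), Nat.mod_eq_sub_mod h, Nat.mod_eq_of_lt (by omega)]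
    omega
  · rw [if_neg (fun h1 => h (hiff.1 h1)), Nat.mod_eq_of_lt (by omega)]
    omega

theorem legendre {b : ℕ} (hb : 2 ≤ b) (a a' K : ℕ) :
    ∑ i ∈ range K, a / b ^ i % b + ∑ i ∈ range K, a' / b ^ i % b +
        ∑ i ∈ range K, ga b a a' (i + 1) =
      ∑ i ∈ range K, (a + a') / b ^ i % b + b * ∑ i ∈ range K, ga b a a' (i + 1) +
        ga b a a' K := by
  induction K with
  | zero => simp [ga, Nat.mod_one]
  | succ K ih =>
    rw [sum_range_succ, sum_range_succ, sum_range_succ, sum_range_succ]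
    have h := digit_carry hb a a' K
    have e : b * (∑ i ∈ range K, ga b a a' (i + 1) + ga b a a' (K + 1)) =
        b * ∑ i ∈ range K, ga b a a' (i + 1) + b * ga b a a' (K + 1) := by ring
    rw [e]
    omega

theorem sum_pairs {b K : ℕ} (f g : ℕ → ℕ) (hf : ∀ i, f i < b) (hg : ∀ i, g i < b)
    (φ : ℕ → ℕ → ℝ) :
    ∑ i ∈ range K, φ (f i) (g i) = ∑ u ∈ range b, ∑ v ∈ range b,
      φ u v * (#{i ∈ range K | f i = u ∧ g i = v} : ℝ) := by
  have h1 : ∀ u v : ℕ, φ u v * (#{i ∈ range K | f i = u ∧ g i = v} : ℝ) =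
      ∑ i ∈ range K, if f i = u then (if g i = v then φ u v else 0) else 0 := by
    intro u v
    rw [card_filter]
    push_cast
    rw [mul_sum]
    refine sum_congr rfl fun i _ => ?_
    by_cases h2 : f i = u
    · by_cases h3 : g i = v
      · simp [h2, h3]
      · simp [h3]
    · simp [h2]
  simp only [h1]
  have h2 : ∑ u ∈ range b, ∑ v ∈ range b, ∑ i ∈ range K,
      (if f i = u then (if g i = v then φ u v else 0) else 0) =
      ∑ i ∈ range K, ∑ u ∈ range b, ∑ v ∈ range b,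
      (if f i = u then (if g i = v then φ u v else 0) else 0) :=
    (sum_congr rfl fun u _ => sum_comm).trans sum_comm
  rw [h2]
  refine sum_congr rfl fun i _ => ?_
  rw [sum_eq_single (f i), sum_eq_single (g i)]
  · simp
  · intro v _ hv
    rw [if_pos rfl, if_neg (fun h => hv h.symm)]
  · intro h
    exact absurd (mem_range.2 (hg i)) h
  · intro u _ hu
    refine sum_eq_zero fun v _ => ?_
    rw [if_neg (fun h => hu h.symm)]
  · intro h
    exact absurd (mem_range.2 (hf i)) h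

/-- the number of the positions where `a + a'` has the digit `u` and `a` has the digit `v` -/
noncomputable def Fc (b K u v : ℕ) (p : ℕ × ℕ) : ℝ :=
  (#{i ∈ range K | (p.1 + p.2) / b ^ i % b = u ∧ p.1 / b ^ i % b = v} : ℝ)

/-- the number of carries -/
noncomputable def Cc (b K : ℕ) (p : ℕ × ℕ) : ℝ :=
  (#{i ∈ range K | b ^ (i + 1) ≤ p.1 % b ^ (i + 1) + p.2 % b ^ (i + 1)} : ℝ)

theorem Cc_eq (b K : ℕ) (p : ℕ × ℕ) : Cc b K p = ((∑ i ∈ range K, ga b p.1 p.2 (i + 1) : ℕ) : ℝ) := by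
  unfold Cc ga
  rw [card_filter]

theorem sum_uv (b : ℕ) : ∑ _u ∈ range b, ∑ v ∈ range b, (v : ℝ) = b * (b * (b - 1) / 2) := by
  have h : ∑ v ∈ range b, (v : ℝ) = b * (b - 1) / 2 := by
    induction b with
    | zero => simp
    | succ b ih =>
      rw [sum_range_succ, ih]
      push_cast
      ring
  rw [h, sum_const, card_range, nsmul_eq_mul]

theorem sum_uv' (b : ℕ) : ∑ u ∈ range b, ∑ _v ∈ range b, (u : ℝ) = b * (b * (b - 1) / 2) := by
  rw [sum_comm]
  exact sum_uv b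

/-- The number of the carries in terms of the digits. -/
theorem carries_eq {b : ℕ} (hb : 2 ≤ b) (K : ℕ) (p : ℕ × ℕ) :
    ((b : ℝ) - 1) * (Cc b K p - K / 2) =
      ∑ u ∈ range b, ∑ v ∈ range b, ((v : ℝ) - u) * (Fc b K u v p - K / (b : ℝ) ^ 2) +
      ∑ u ∈ range b, ∑ v ∈ range b, (v : ℝ) * (Fc b K u v p.swap - K / (b : ℝ) ^ 2) -
      ga b p.1 p.2 K := by
  have hb0 : (b : ℝ) ≠ 0 := by
    have : (2 : ℝ) ≤ b := by exact_mod_cast hb
    linarith
  have hlt : ∀ x : ℕ, x % b < b := fun x => Nat.mod_lt _ (by omega)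
  have h1 := congrArg (fun n : ℕ => (n : ℝ)) (legendre hb p.1 p.2 K)
  push_cast at h1
  have hC : Cc b K p = ∑ i ∈ range K, (ga b p.1 p.2 (i + 1) : ℝ) := by
    rw [Cc_eq]; push_cast; rfl
  rw [← hC] at h1
  have ha := sum_pairs (K := K) (fun i => (p.1 + p.2) / b ^ i % b) (fun i => p.1 / b ^ i % b)
    (fun i => hlt _) (fun i => hlt _) (fun _ v => (v : ℝ))
  have hn := sum_pairs (K := K) (fun i => (p.1 + p.2) / b ^ i % b) (fun i => p.1 / b ^ i % b)
    (fun i => hlt _) (fun i => hlt _) (fun u _ => (u : ℝ))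
  have ha' := sum_pairs (K := K) (fun i => (p.2 + p.1) / b ^ i % b) (fun i => p.2 / b ^ i % b)
    (fun i => hlt _) (fun i => hlt _) (fun _ v => (v : ℝ))
  have e1 : ∑ u ∈ range b, ∑ v ∈ range b, ((v : ℝ) - u) * (Fc b K u v p - K / (b : ℝ) ^ 2) =
      ∑ u ∈ range b, ∑ v ∈ range b, (v : ℝ) * Fc b K u v p -
      ∑ u ∈ range b, ∑ v ∈ range b, (u : ℝ) * Fc b K u v p := by
    have e2 : ∀ u v : ℕ, ((v : ℝ) - u) * (Fc b K u v p - K / (b : ℝ) ^ 2) =
        ((v : ℝ) * Fc b K u v p - (u : ℝ) * Fc b K u v p) -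
          ((v : ℝ) * (K / (b : ℝ) ^ 2) - (u : ℝ) * (K / (b : ℝ) ^ 2)) := fun u v => by ring
    simp only [e2, sum_sub_distrib, ← sum_mul]
    rw [sum_uv, sum_uv']
    ring
  have e3 : ∑ u ∈ range b, ∑ v ∈ range b, (v : ℝ) * (Fc b K u v p.swap - K / (b : ℝ) ^ 2) =
      ∑ u ∈ range b, ∑ v ∈ range b, (v : ℝ) * Fc b K u v p.swap - K * (b - 1) / 2 := by
    have e2 : ∀ u v : ℕ, (v : ℝ) * (Fc b K u v p.swap - K / (b : ℝ) ^ 2) =
        (v : ℝ) * Fc b K u v p.swap - (v : ℝ) * (K / (b : ℝ) ^ 2) := fun u v => by ring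
    simp only [e2, sum_sub_distrib, ← sum_mul]
    rw [sum_uv]
    field_simp
  have ha1 : ∑ u ∈ range b, ∑ v ∈ range b, (v : ℝ) * Fc b K u v p =
      ∑ i ∈ range K, ((p.1 / b ^ i % b : ℕ) : ℝ) := ha.symm
  have hn1 : ∑ u ∈ range b, ∑ v ∈ range b, (u : ℝ) * Fc b K u v p =
      ∑ i ∈ range K, (((p.1 + p.2) / b ^ i % b : ℕ) : ℝ) := hn.symm
  have ha2 : ∑ u ∈ range b, ∑ v ∈ range b, (v : ℝ) * Fc b K u v p.swap =
      ∑ i ∈ range K, ((p.2 / b ^ i % b : ℕ) : ℝ) := ha'.symm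
  rw [e1, e3, ha1, hn1, ha2]
  linarith

theorem exists_dev {b : ℕ} (hb : 2 ≤ b) (K : ℕ) (p : ℕ × ℕ) {T : ℝ} (hT : 2 ≤ T)
    (h : T ≤ |Cc b K p - K / 2|) :
    ∃ u ∈ range b, ∃ v ∈ range b, T / (8 * (b : ℝ) ^ 2) ≤ |Fc b K u v p - K / (b : ℝ) ^ 2| ∨
      T / (8 * (b : ℝ) ^ 2) ≤ |Fc b K u v p.swap - K / (b : ℝ) ^ 2| := by
  by_contra hcon
  push Not at hcon
  have hb2 : (2 : ℝ) ≤ b := by exact_mod_cast hb
  set θ : ℝ := T / (8 * (b : ℝ) ^ 2) with hθ
  have hθ0 : 0 ≤ θ := by positivity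
  have h1 := congrArg abs (carries_eq hb K p)
  rw [abs_mul, abs_of_pos (by linarith : (0 : ℝ) < b - 1)] at h1
  have h2 : |∑ u ∈ range b, ∑ v ∈ range b, ((v : ℝ) - u) * (Fc b K u v p - K / (b : ℝ) ^ 2)| ≤
      (b : ℝ) * (b * ((b - 1) * θ)) := by
    refine (abs_sum_le_sum_abs _ _).trans ?_
    calc ∑ u ∈ range b, |∑ v ∈ range b, ((v : ℝ) - u) * (Fc b K u v p - K / (b : ℝ) ^ 2)| ≤
          ∑ u ∈ range b, ∑ v ∈ range b, ((b : ℝ) - 1) * θ := by
          refine sum_le_sum fun u hu => (abs_sum_le_sum_abs _ _).trans ?_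
          refine sum_le_sum fun v hv => ?_
          rw [abs_mul]
          refine mul_le_mul ?_ (hcon u hu v hv).1.le (abs_nonneg _) (by linarith)
          have hu' : (u : ℝ) + 1 ≤ b := by exact_mod_cast mem_range.1 hu
          have hv' : (v : ℝ) + 1 ≤ b := by exact_mod_cast mem_range.1 hv
          have hu0 : (0 : ℝ) ≤ u := Nat.cast_nonneg u
          have hv0 : (0 : ℝ) ≤ v := Nat.cast_nonneg v
          rw [abs_le]
          constructor <;> linarith
      _ = _ := by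
          simp only [sum_const, card_range, nsmul_eq_mul]
  have h3 : |∑ u ∈ range b, ∑ v ∈ range b, (v : ℝ) * (Fc b K u v p.swap - K / (b : ℝ) ^ 2)| ≤
      (b : ℝ) * (b * ((b - 1) * θ)) := by
    refine (abs_sum_le_sum_abs _ _).trans ?_
    calc ∑ u ∈ range b, |∑ v ∈ range b, (v : ℝ) * (Fc b K u v p.swap - K / (b : ℝ) ^ 2)| ≤
          ∑ u ∈ range b, ∑ v ∈ range b, ((b : ℝ) - 1) * θ := by
          refine sum_le_sum fun u hu => (abs_sum_le_sum_abs _ _).trans ?_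
          refine sum_le_sum fun v hv => ?_
          rw [abs_mul]
          refine mul_le_mul ?_ (hcon u hu v hv).2.le (abs_nonneg _) (by linarith)
          have hv' : (v : ℝ) + 1 ≤ b := by exact_mod_cast mem_range.1 hv
          have hv0 : (0 : ℝ) ≤ v := Nat.cast_nonneg v
          rw [abs_le]
          constructor <;> linarith
      _ = _ := by
          simp only [sum_const, card_range, nsmul_eq_mul]
  have h4 : |(ga b p.1 p.2 K : ℝ)| ≤ 1 := by
    unfold ga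
    split_ifs <;> simp
  have h5 := abs_sub (∑ u ∈ range b, ∑ v ∈ range b,
      ((v : ℝ) - u) * (Fc b K u v p - K / (b : ℝ) ^ 2) +
      ∑ u ∈ range b, ∑ v ∈ range b, (v : ℝ) * (Fc b K u v p.swap - K / (b : ℝ) ^ 2))
      (ga b p.1 p.2 K : ℝ)
  have h6 := abs_add_le (∑ u ∈ range b, ∑ v ∈ range b,
      ((v : ℝ) - u) * (Fc b K u v p - K / (b : ℝ) ^ 2))
      (∑ u ∈ range b, ∑ v ∈ range b, (v : ℝ) * (Fc b K u v p.swap - K / (b : ℝ) ^ 2))
  have h7 : ((b : ℝ) - 1) * T ≤ ((b : ℝ) - 1) * |Cc b K p - K / 2| :=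
    mul_le_mul_of_nonneg_left h (by linarith)
  have h8 : (b : ℝ) * (b * ((b - 1) * θ)) = (b - 1) * (T / 8) := by
    rw [hθ]
    have : (b : ℝ) ≠ 0 := by linarith
    field_simp
  rw [h8] at h2 h3
  have h9 : ((b : ℝ) - 1) * T ≤ (b - 1) * (T / 8) + (b - 1) * (T / 8) + 1 := by linarith
  have h10 : (1 : ℝ) ≤ b - 1 := by linarith
  nlinarith

theorem card_pairs_sq {b K : ℕ} {B : Finset ℕ} {P : Finset (ℕ × ℕ)} (hB : B ⊆ range (b ^ K))
    (hP : P ⊆ B ×ˢ B) :
    (#P : ℝ) ^ 2 ≤ 2 * ((b : ℝ) ^ K * ∑ n ∈ range (2 * b ^ K), (r B n : ℝ) ^ 2) := by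
  have h1 : #(B ×ˢ B) = ∑ n ∈ range (2 * b ^ K), r B n := by
    unfold r
    refine card_eq_sum_card_fiberwise fun p hp => ?_
    rw [mem_coe, mem_product] at hp
    have h2 := mem_range.1 (hB hp.1)
    have h3 := mem_range.1 (hB hp.2)
    rw [mem_coe, mem_range]
    omega
  have h2 : (#P : ℝ) ≤ ∑ n ∈ range (2 * b ^ K), (r B n : ℝ) := by
    have := (card_le_card hP).trans_eq h1
    exact_mod_cast this
  have h3 := sq_sum_le_card_mul_sum_sq (s := range (2 * b ^ K)) (f := fun n => (r B n : ℝ))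
  rw [card_range] at h3
  push_cast at h3
  calc (#P : ℝ) ^ 2 ≤ (∑ n ∈ range (2 * b ^ K), (r B n : ℝ)) ^ 2 :=
        pow_le_pow_left₀ (Nat.cast_nonneg _) h2 2
    _ ≤ _ := h3
    _ = _ := by ring

/-- Tails for the carries from tails for the pairs of digits. -/
theorem carries_of {b : ℕ} (hb : 2 ≤ b) {c C : ℝ} (hc : 0 < c) (hC : 0 < C)
    (h : ∀ (K : ℕ) (B : Finset ℕ) (P : Finset (ℕ × ℕ)) (u v : ℕ) (t : ℝ), 1 ≤ K →
      B ⊆ range (b ^ K) → P ⊆ B ×ˢ B → u < b → v < b → 0 ≤ t →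
      (∀ p ∈ P, t * (K : ℝ) ^ (3 / 4 : ℝ) ≤ |(#{i ∈ range K | (p.1 + p.2) / b ^ i % b = u ∧
        p.1 / b ^ i % b = v} : ℝ) - K / (b : ℝ) ^ 2|) →
      (#P : ℝ) ^ 2 ≤ C * Real.exp (-c * t ^ 4) * (b : ℝ) ^ K *
        ∑ n ∈ range (2 * b ^ K), (r B n : ℝ) ^ 2) :
    ∃ c' C' : ℝ, 0 < c' ∧ 0 < C' ∧ ∀ (K : ℕ) (B : Finset ℕ) (P : Finset (ℕ × ℕ)) (t : ℝ),
      1 ≤ K → B ⊆ range (b ^ K) → P ⊆ B ×ˢ B → 0 ≤ t →
      (∀ p ∈ P, t * (K : ℝ) ^ (3 / 4 : ℝ) ≤ |(#{i ∈ range K |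
        b ^ (i + 1) ≤ p.1 % b ^ (i + 1) + p.2 % b ^ (i + 1)} : ℝ) - K / 2|) →
      (#P : ℝ) ^ 2 ≤ C' * Real.exp (-c' * t ^ 4) * (b : ℝ) ^ K *
        ∑ n ∈ range (2 * b ^ K), (r B n : ℝ) ^ 2 := by
  classical
  have hb2 : (2 : ℝ) ≤ b := by exact_mod_cast hb
  set g : ℝ := 8 * (b : ℝ) ^ 2 with hg
  have hg0 : 0 < g := by positivity
  set c' : ℝ := c / g ^ 4 with hc'
  have hc'0 : 0 < c' := by positivity
  refine ⟨c', 2 * Real.exp (c' * 16) + 4 * (b : ℝ) ^ 4 * C, hc'0, by positivity, ?_⟩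
  intro K B P t hK hB hP ht hcar
  set E : ℝ := (b : ℝ) ^ K * ∑ n ∈ range (2 * b ^ K), (r B n : ℝ) ^ 2 with hE
  have hE0 : 0 ≤ E := by positivity
  have hK1 : (1 : ℝ) ≤ K := by exact_mod_cast hK
  have hK34 : (1 : ℝ) ≤ (K : ℝ) ^ (3 / 4 : ℝ) := Real.one_le_rpow hK1 (by norm_num)
  have hgoal : (#P : ℝ) ^ 2 ≤ (2 * Real.exp (c' * 16) + 4 * (b : ℝ) ^ 4 * C) *
      Real.exp (-c' * t ^ 4) * E → (#P : ℝ) ^ 2 ≤ (2 * Real.exp (c' * 16) + 4 * (b : ℝ) ^ 4 * C) *
      Real.exp (-c' * t ^ 4) * (b : ℝ) ^ K * ∑ n ∈ range (2 * b ^ K), (r B n : ℝ) ^ 2 := by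
    intro h1
    rw [mul_assoc (_ * Real.exp _)]
    exact h1
  refine hgoal ?_
  have hexp0 : 0 < Real.exp (-c' * t ^ 4) := Real.exp_pos _
  rcases lt_or_ge (t * (K : ℝ) ^ (3 / 4 : ℝ)) 2 with hsmall | hlarge
  · have ht2 : t < 2 := by nlinarith
    have ht4 : t ^ 4 ≤ 16 := by
      have := pow_le_pow_left₀ ht ht2.le 4
      norm_num at this
      exact this
    have h1 : 1 ≤ Real.exp (c' * 16) * Real.exp (-c' * t ^ 4) := by
      rw [← Real.exp_add]
      refine Real.one_le_exp ?_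
      nlinarith
    have h2 := card_pairs_sq hB hP
    calc (#P : ℝ) ^ 2 ≤ 2 * 1 * E := by rw [mul_one]; exact h2
      _ ≤ 2 * (Real.exp (c' * 16) * Real.exp (-c' * t ^ 4)) * E := by gcongr
      _ ≤ _ := by
        have : 0 ≤ 4 * (b : ℝ) ^ 4 * C * Real.exp (-c' * t ^ 4) * E := by positivity
        nlinarith
  · set Z : ℝ := √(C * Real.exp (-c * (t / g) ^ 4) * E) with hZ
    have hZ0 : 0 ≤ Z := Real.sqrt_nonneg _
    have key : ∀ (Q : Finset (ℕ × ℕ)) (u v : ℕ), u ∈ range b → v ∈ range b → Q ⊆ B ×ˢ B →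
        (∀ p ∈ Q, t * (K : ℝ) ^ (3 / 4 : ℝ) / g ≤ |Fc b K u v p - K / (b : ℝ) ^ 2|) →
        (#Q : ℝ) ≤ Z := by
      intro Q u v hu hv hQ hdev
      have h1 := h K B Q u v (t / g) hK hB hQ (mem_range.1 hu) (mem_range.1 hv) (by positivity)
        (fun p hp => by
          have h2 := hdev p hp
          have e : t / g * (K : ℝ) ^ (3 / 4 : ℝ) = t * (K : ℝ) ^ (3 / 4 : ℝ) / g := by ring
          rw [e]
          exact h2)
      rw [hZ]
      refine Real.le_sqrt_of_sq_le ?_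
      rw [mul_assoc (C * _)] at h1
      exact h1
    set P1 : ℕ × ℕ → Finset (ℕ × ℕ) := fun w => P.filter fun p =>
      t * (K : ℝ) ^ (3 / 4 : ℝ) / g ≤ |Fc b K w.1 w.2 p - K / (b : ℝ) ^ 2| with hP1
    set P2 : ℕ × ℕ → Finset (ℕ × ℕ) := fun w => P.filter fun p =>
      t * (K : ℝ) ^ (3 / 4 : ℝ) / g ≤ |Fc b K w.1 w.2 p.swap - K / (b : ℝ) ^ 2| with hP2
    have hcover : P ⊆ (range b ×ˢ range b).biUnion fun w => P1 w ∪ P2 w := by
      intro p hp
      obtain ⟨u, hu, v, hv, h1⟩ := exists_dev hb K p hlarge (hcar p hp)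
      rw [mem_biUnion]
      refine ⟨(u, v), mem_product.2 ⟨hu, hv⟩, ?_⟩
      rw [mem_union]
      rcases h1 with h1 | h1
      · exact Or.inl (mem_filter.2 ⟨hp, h1⟩)
      · exact Or.inr (mem_filter.2 ⟨hp, h1⟩)
    have h1 : ∀ w ∈ range b ×ˢ range b, (#(P1 w) : ℝ) ≤ Z := by
      intro w hw
      rw [mem_product] at hw
      exact key (P1 w) w.1 w.2 hw.1 hw.2 ((filter_subset _ _).trans hP)
        (fun p hp => (mem_filter.1 hp).2)
    have h2 : ∀ w ∈ range b ×ˢ range b, (#(P2 w) : ℝ) ≤ Z := by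
      intro w hw
      rw [mem_product] at hw
      have e : #(P2 w) = #((P2 w).image Prod.swap) :=
        (card_image_of_injective _ Prod.swap_injective).symm
      rw [e]
      refine key _ w.1 w.2 hw.1 hw.2 ?_ ?_
      · intro p hp
        obtain ⟨q, hq, rfl⟩ := mem_image.1 hp
        have h3 := mem_product.1 (hP (mem_filter.1 hq).1)
        exact mem_product.2 ⟨h3.2, h3.1⟩
      · intro p hp
        obtain ⟨q, hq, rfl⟩ := mem_image.1 hp
        exact (mem_filter.1 hq).2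
    have h3 : (#P : ℝ) ≤ 2 * (b : ℝ) ^ 2 * Z := by
      calc (#P : ℝ) ≤ ∑ w ∈ range b ×ˢ range b, ((#(P1 w) : ℝ) + #(P2 w)) := by
            have h4 := (card_le_card hcover).trans card_biUnion_le
            have h5 : ∑ w ∈ range b ×ˢ range b, #(P1 w ∪ P2 w) ≤
                ∑ w ∈ range b ×ˢ range b, (#(P1 w) + #(P2 w)) :=
              sum_le_sum fun w _ => card_union_le _ _
            exact_mod_cast h4.trans h5
        _ ≤ ∑ w ∈ range b ×ˢ range b, (Z + Z) :=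
            sum_le_sum fun w hw => add_le_add (h1 w hw) (h2 w hw)
        _ = _ := by
            rw [sum_const, card_product, card_range, nsmul_eq_mul]
            push_cast
            ring
    have h6 : (-c * (t / g) ^ 4) = -c' * t ^ 4 := by
      rw [hc']
      field_simp
    calc (#P : ℝ) ^ 2 ≤ (2 * (b : ℝ) ^ 2 * Z) ^ 2 := pow_le_pow_left₀ (Nat.cast_nonneg _) h3 2
      _ = 4 * (b : ℝ) ^ 4 * Z ^ 2 := by ring
      _ = 4 * (b : ℝ) ^ 4 * (C * Real.exp (-c' * t ^ 4) * E) := by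
          rw [hZ, Real.sq_sqrt (by positivity), h6]
      _ ≤ _ := by
        have : 0 ≤ 2 * Real.exp (c' * 16) * Real.exp (-c' * t ^ 4) * E := by positivity
        nlinarith

end Pool.Agent.Helper18.FP
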