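import Pool.Agent.Helper5.FP.Text
import Pool.Agent.Helper18.FP.Carry

/-!
Fourth power tails for the number of carries (and for the exponent of a prime in the binomial
coefficient of `a + a'` and `a`).
-/

set_option autoImplicit false

namespace Pool.Agent.Helper18.FP

open Pool.Agent.Helper5.FP.Text (rep energy_mono)
open Pool.Agent.Helper5.TQ (cnt2)

theorem ncard_carries (b K a a' : ℕ) :
    {i | i < K ∧ b ^ (i + 1) ≤ a % b ^ (i + 1) + a' % b ^ (i + 1)}.ncard =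
      ((Finset.range K).filter fun i => b ^ (i + 1) ≤ a % b ^ (i + 1) + a' % b ^ (i + 1)).card := by
  rw [← Set.ncard_coe_finset]
  congr 1
  ext i
  simp

theorem carries (b : ℕ) (hb : 2 ≤ b) : ∃ c C : ℝ, 0 < c ∧ 0 < C ∧
    ∀ (A : Set ℕ) (K : ℕ) (t : ℝ), 1 ≤ K → 0 ≤ t →
      ({p : ℕ × ℕ | p.1 ∈ A ∧ p.2 ∈ A ∧ p.1 < b ^ K ∧ p.2 < b ^ K ∧
        t * (K : ℝ) ^ (3 / 4 : ℝ) ≤
          |({i | i < K ∧ b ^ (i + 1) ≤ p.1 % b ^ (i + 1) + p.2 % b ^ (i + 1)}.ncard : ℝ) -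
            K / 2|}.ncard : ℝ) ^ 2 ≤
      C * Real.exp (-(c * t ^ 4)) *
        ((b : ℝ) ^ K * ∑ n ∈ Finset.range (2 * b ^ K), (rep A n : ℝ) ^ 2) := by
  classical
  obtain ⟨c₁, C₁, hc₁, hC₁, h₁⟩ := Pool.Agent.Helper5.FP.tails_pairs b 1 hb
  obtain ⟨c, C, hc, hC, h⟩ := carries_of hb hc₁ hC₁ (by
    intro K B P u v t hK hB hP hu hv ht hdev
    have h2 := h₁ u v K B P t (by rwa [pow_one]) (by rwa [pow_one]) hK hB hP ht (by
      intro p hp
      have h3 := hdev p hp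
      unfold cnt2
      rw [pow_one, mul_one]
      exact h3)
    rw [neg_mul, mul_assoc (C₁ * _)]
    exact h2)
  refine ⟨c, C, hc, hC, fun A K t hK ht => ?_⟩
  set B : Finset ℕ := (Finset.range (b ^ K)).filter fun a => a ∈ A with hB
  set P : Finset (ℕ × ℕ) := (B ×ˢ B).filter fun p => t * (K : ℝ) ^ (3 / 4 : ℝ) ≤
    |(((Finset.range K).filter fun i =>
      b ^ (i + 1) ≤ p.1 % b ^ (i + 1) + p.2 % b ^ (i + 1)).card : ℝ) - K / 2| with hP
  have e1 : {p : ℕ × ℕ | p.1 ∈ A ∧ p.2 ∈ A ∧ p.1 < b ^ K ∧ p.2 < b ^ K ∧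
      t * (K : ℝ) ^ (3 / 4 : ℝ) ≤
        |({i | i < K ∧ b ^ (i + 1) ≤ p.1 % b ^ (i + 1) + p.2 % b ^ (i + 1)}.ncard : ℝ) -
          K / 2|} = (P : Set (ℕ × ℕ)) := by
    ext p
    rw [hP, Finset.coe_filter, Set.mem_ofPred_eq, Set.mem_ofPred_eq, Finset.mem_product, hB,
      Finset.mem_filter, Finset.mem_filter, Finset.mem_range, Finset.mem_range, ncard_carries]
    tauto
  rw [e1, Set.ncard_coe_finset]
  have h1 := h K B P t hK (Finset.filter_subset _ _) (Finset.filter_subset _ _) ht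
    (fun p hp => (Finset.mem_filter.1 hp).2)
  rw [neg_mul, mul_assoc (C * _)] at h1
  refine h1.trans (mul_le_mul_of_nonneg_left (mul_le_mul_of_nonneg_left
    (energy_mono (fun a ha => (Finset.mem_filter.1 ha).2) _) (by positivity)) (by positivity))

/-- The theorem of Kummer. -/
theorem kummer {p : ℕ} (hp : p.Prime) {K a a' : ℕ} (ha : a < p ^ K) (ha' : a' < p ^ K) :
    {i | i < K ∧ p ^ (i + 1) ≤ a % p ^ (i + 1) + a' % p ^ (i + 1)}.ncard =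
      padicValNat p ((a + a').choose a) := by
  haveI : Fact p.Prime := ⟨hp⟩
  have h2 : 2 ≤ p := hp.two_le
  have hlog : Nat.log p (a' + a) < K + 1 := by
    refine Nat.log_lt_of_lt_pow' (by omega) ?_
    calc a' + a < 2 * p ^ K := by omega
      _ ≤ p * p ^ K := Nat.mul_le_mul_right _ h2
      _ = p ^ (K + 1) := by ring
  rw [Nat.add_comm a a', padicValNat_choose' hlog, ncard_carries]
  refine Finset.card_bij (fun i _ => i + 1) ?_ ?_ ?_
  · intro i hi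
    rw [Finset.mem_filter, Finset.mem_range] at hi
    rw [Finset.mem_filter, Finset.mem_Ico]
    exact ⟨by omega, hi.2⟩
  · intro i _ j _ hij
    omega
  · intro j hj
    rw [Finset.mem_filter, Finset.mem_Ico] at hj
    refine ⟨j - 1, ?_, by omega⟩
    rw [Finset.mem_filter, Finset.mem_range]
    have e : j - 1 + 1 = j := by omega
    rw [e]
    exact ⟨by omega, hj.2⟩

/-- The same for the exponent of the prime `p` in the binomial coefficient. -/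
theorem binomials (p : ℕ) (hp : p.Prime) : ∃ c C : ℝ, 0 < c ∧ 0 < C ∧
    ∀ (A : Set ℕ) (K : ℕ) (t : ℝ), 1 ≤ K → 0 ≤ t →
      ({w : ℕ × ℕ | w.1 ∈ A ∧ w.2 ∈ A ∧ w.1 < p ^ K ∧ w.2 < p ^ K ∧
        t * (K : ℝ) ^ (3 / 4 : ℝ) ≤
          |(padicValNat p ((w.1 + w.2).choose w.1) : ℝ) - K / 2|}.ncard : ℝ) ^ 2 ≤
      C * Real.exp (-(c * t ^ 4)) *
        ((p : ℝ) ^ K * ∑ n ∈ Finset.range (2 * p ^ K), (rep A n : ℝ) ^ 2) := by
  obtain ⟨c, C, hc, hC, h⟩ := carries p hp.two_le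
  refine ⟨c, C, hc, hC, fun A K t hK ht => ?_⟩
  have h1 := h A K t hK ht
  have e : {w : ℕ × ℕ | w.1 ∈ A ∧ w.2 ∈ A ∧ w.1 < p ^ K ∧ w.2 < p ^ K ∧
      t * (K : ℝ) ^ (3 / 4 : ℝ) ≤ |(padicValNat p ((w.1 + w.2).choose w.1) : ℝ) - K / 2|} =
      {w : ℕ × ℕ | w.1 ∈ A ∧ w.2 ∈ A ∧ w.1 < p ^ K ∧ w.2 < p ^ K ∧
        t * (K : ℝ) ^ (3 / 4 : ℝ) ≤
          |({i | i < K ∧ p ^ (i + 1) ≤ w.1 % p ^ (i + 1) + w.2 % p ^ (i + 1)}.ncard : ℝ) -
            K / 2|} := by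
    ext w
    rw [Set.mem_ofPred_eq, Set.mem_ofPred_eq]
    constructor
    · rintro ⟨h2, h3, h4, h5, h6⟩
      exact ⟨h2, h3, h4, h5, by rwa [kummer hp h4 h5]⟩
    · rintro ⟨h2, h3, h4, h5, h6⟩
      exact ⟨h2, h3, h4, h5, by rwa [kummer hp h4 h5] at h6⟩
  rw [e]
  exact h1

end Pool.Agent.Helper18.FP
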